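import Pool.Agent.Helper38.TH.GoalsA
import Pool.Agent.Helper18.M3.SOSB
import Pool.Agent.Helper83.PP.CLAB
import Pool.Agent.Helper22.PP.CDEC

/-! Packet TH-T_OSBG of project TH (helper38, MP_fc6b1e_nt). -/

set_option autoImplicit false

namespace Pool.Agent.Helper39.TH

open Finset
open Pool.Agent.Helper17.PP Pool.Agent.Helper17.PP0 Pool.Agent.Helper17.PP2
open Pool.Agent.Helper11.M3 Pool.Agent.Helper38.TH
open Pool.Agent.Helper30.PP (mem_blk nm_pos sum_swap decomp)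
open Pool.Agent.Helper30.PP2 (c0 y0 ph_insert AA Ph AA_norm ph_norm upto_sum Nz_iff cutc_ne
  cuty_ne exq exq_le)
open Pool.Agent.Helper18.M3 (ph_two rs_card Zs WW WW_nonneg bern ful_eq)

variable {p : ℕ} {B B₀ k U Λ C : Type} [Field k] [AddCommGroup U] [Module k U]
    [AddCommGroup Λ] [Module k Λ] [AddCommGroup C] (S : Sys p B B₀ k U Λ C)

/-- the conditions on `r`, `q` -/
structure cR (V : B → Prop) (Lk : k → k → Prop) (T E i₁ i₂ m : ℕ) (t s : k) (c y : B → k)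
    (r : Finset B) (q : B) : Prop where
  inj : Set.InjOn S.bs (r : Set B)
  ok : Ok S (fun _ ↦ True) T r
  bl : ∀ q' ∈ r, S.bl q' ≠ i₁ ∧ S.bl q' ≠ i₂
  wv : Wv S r q
  hm : m ≤ S.bl q
  nV : ¬ V q
  no : ∀ q' ∈ r, ¬ V q' → q' ≠ q → T ≤ S.bl q' → ¬ Lq S Lk E (S.bl q) t s c y q'
  top : ∀ q' ∈ r, ¬ V q' → q' ≠ q → T ≤ S.bl q' → Nz S E (S.bl q) c y q' → S.bl q' < i₂

open Classical in
lemma cond_iff (V : B → Prop) (Lk : k → k → Prop) (T E i₁ i₂ m : ℕ) (hT : T ≤ i₂) (h21 : i₂ < i₁)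
    (_hTm : T ≤ m) (t s : k) (c y : B → k) (r : Finset B) (q q₁ q₂ : B) (hq : q ∈ r)
    (h1 : q₁ ∉ r) (h2 : q₂ ∉ insert q₁ r) :
    ((S.Fam (insert q₂ (insert q₁ r)) ∧ Ok S (fun _ ↦ True) T (insert q₂ (insert q₁ r))) ∧
      (Wv S (insert q₂ (insert q₁ r)) q ∧ m ≤ S.bl q ∧ ¬ V q) ∧ S.bl q₁ = i₁ ∧ S.bl q₂ = i₂ ∧
      TtV S V Lk T E (insert q₂ (insert q₁ r)) q t s c y q₁ q₂) ↔
    cR S V Lk T E i₁ i₂ m t s c y r q ∧
      (S.bl q₁ = i₁ ∧ ¬ V q₁ ∧ Nz S E (S.bl q) c y q₁ ∧ ¬ Lq S Lk E (S.bl q) t s c y q₁) ∧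
      (S.bl q₂ = i₂ ∧ ¬ V q₂ ∧ Nz S E (S.bl q) c y q₂ ∧ ¬ Lq S Lk E (S.bl q) t s c y q₂) ∧
      S.cls q₂ + (S.cls q₁ + ∑ q' ∈ r, S.cls q') = S.cl₀ := by
  have hne : q₂ ≠ q₁ := fun h => h2 (h ▸ mem_insert_self _ _)
  have h2r : q₂ ∉ r := fun h => h2 (mem_insert_of_mem h)
  have m1 : q₁ ∈ insert q₂ (insert q₁ r) := mem_insert_of_mem (mem_insert_self _ _)
  have m2 : q₂ ∈ insert q₂ (insert q₁ r) := mem_insert_self _ _
  have mr : ∀ q' ∈ r, q' ∈ insert q₂ (insert q₁ r) := fun q' hq' =>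
    mem_insert_of_mem (mem_insert_of_mem hq')
  have n1 : ∀ q' ∈ r, q' ≠ q₁ := fun q' hq' h => h1 (h ▸ hq')
  have n2 : ∀ q' ∈ r, q' ≠ q₂ := fun q' hq' h => h2r (h ▸ hq')
  constructor
  · rintro ⟨⟨⟨f1, f2⟩, o1, o2⟩, ⟨w, hm, nV⟩, hi1, hi2, tt⟩
    rw [sum_insert h2, sum_insert h1] at f2
    refine ⟨⟨?_, ⟨?_, fun _ _ _ => trivial⟩, ?_, ⟨hq, w.spl, ?_⟩, hm, nV, ?_, ?_⟩,
      ⟨hi1, tt.nV₁, tt.nz₁, tt.no q₁ m1 tt.nV₁ tt.ne₁ (by omega)⟩,
      ⟨hi2, tt.nV₂, tt.nz₂, tt.no q₂ m2 tt.nV₂ tt.ne₂ (by omega)⟩, f2⟩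
    · refine f1.mono ?_
      intro z hz
      simp only [coe_insert, Set.mem_insert_iff]
      exact Or.inr (Or.inr hz)
    · exact fun a ha b hb hab => o1 a (mr a ha) b (mr b hb) hab
    · intro q' hq'
      constructor
      · intro h
        have := o1 q' (mr q' hq') q₁ m1 (n1 q' hq') (h.trans hi1.symm)
        omega
      · intro h
        have := o1 q' (mr q' hq') q₂ m2 (n2 q' hq') (h.trans hi2.symm)
        omega
    · exact fun q' hq' h3 h4 => w.uniq q' (mr q' hq') h3 h4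
    · exact fun q' hq' hv h3 h4 => tt.no q' (mr q' hq') hv h3 h4
    · intro q' hq' hv h3 h4 h5
      rw [← hi2]
      exact tt.top q' (mr q' hq') hv h3 (n1 q' hq') (n2 q' hq') h4 h5
  · rintro ⟨hc, ⟨hi1, v1, z1, l1⟩, ⟨hi2, v2, z2, l2⟩, f2⟩
    have hNbl : ∀ a b, S.bs a = S.bs b → S.bl a = S.bl b := fun a b h => by
      unfold Sys.bl
      rw [S.bsN a b h]
    have h1r' : ∀ q' ∈ r, S.bs q₁ ≠ S.bs q' := fun q' hq' h =>
      (hc.bl q' hq').1 ((hNbl q₁ q' h).symm.trans hi1)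
    have h2r' : ∀ q' ∈ r, S.bs q₂ ≠ S.bs q' := fun q' hq' h =>
      (hc.bl q' hq').2 ((hNbl q₂ q' h).symm.trans hi2)
    have h12 : S.bs q₂ ≠ S.bs q₁ := fun h => by
      have := hNbl _ _ h
      omega
    refine ⟨⟨⟨?_, ?_⟩, ⟨?_, fun _ _ _ => trivial⟩⟩, ⟨⟨mr q hq, hc.wv.spl, ?_⟩, hc.hm, hc.nV⟩,
      hi1, hi2, ⟨m1, m2, v1, v2, (n1 q hq).symm, (n2 q hq).symm, by omega, by omega, z1, z2,
        ?_, ?_⟩⟩
    · rw [coe_insert, coe_insert, Set.injOn_insert (by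
        simp only [Set.mem_insert_iff, not_or]
        exact ⟨hne, h2r⟩), Set.injOn_insert h1]
      refine ⟨⟨hc.inj, ?_⟩, ?_⟩
      · rintro ⟨q', hq', h⟩
        exact h1r' q' hq' h.symm
      · rintro ⟨q', hq', h⟩
        rcases hq' with rfl | hq'
        · exact h12 h.symm
        · exact h2r' q' hq' h.symm
    · rw [sum_insert h2, sum_insert h1]
      exact f2
    · intro a ha b hb hab hbl
      simp only [mem_insert] at ha hb
      rcases ha with ha | ha | ha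
      · rcases hb with hb | hb | hb
        · exact absurd (ha.trans hb.symm) hab
        · rw [ha, hb] at hbl
          omega
        · rw [ha] at hbl
          exact absurd (hbl.symm.trans hi2) (hc.bl b hb).2
      · rcases hb with hb | hb | hb
        · rw [ha, hb] at hbl
          omega
        · exact absurd (ha.trans hb.symm) hab
        · rw [ha] at hbl
          exact absurd (hbl.symm.trans hi1) (hc.bl b hb).1
      · rcases hb with hb | hb | hb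
        · rw [hb] at hbl
          exact absurd (hbl.trans hi2) (hc.bl a ha).2
        · rw [hb] at hbl
          exact absurd (hbl.trans hi1) (hc.bl a ha).1
        · exact hc.ok.1 a ha b hb hab hbl
    · intro q' hq' h3 h4 h5
      rcases mem_insert.1 hq' with h6 | h6
      · rw [h6, hi2] at h5
        exact (hc.bl q hq).2 h5.symm
      rcases mem_insert.1 h6 with h6 | h6
      · rw [h6, hi1] at h5
        exact (hc.bl q hq).1 h5.symm
      · exact hc.wv.uniq q' h6 h3 h4 h5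
    · intro q' hq' hv h3 h4
      rcases mem_insert.1 hq' with h6 | h6
      · rw [h6]
        exact l2
      rcases mem_insert.1 h6 with h6 | h6
      · rw [h6]
        exact l1
      · exact hc.no q' h6 hv h3 h4
    · intro q' hq' hv h3 h4 h5 h6 h7
      rw [hi2]
      rcases mem_insert.1 hq' with h8 | h8
      · exact absurd h8 h5
      rcases mem_insert.1 h8 with h8 | h8
      · exact absurd h8 h4
      · exact hc.top q' h8 hv h3 h6 h7

open Classical in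
/-- the summand for fixed `x, χ, c, y` -/
noncomputable def gg [Algebra (ZMod p) k] [Fintype k] (V : B → Prop) (Fz : Finset B → ℂ)
    (ψ : AddChar k ℂ) (Lk : k → k → Prop) (T E i₁ i₂ m : ℕ) (t s : k) (X : ℝ)
    (x : U) (χ : AddChar Λ ℂ) (c y : B → k) (b : Finset B) (q q₁ q₂ : B) : ℂ :=
  if (S.Fam b ∧ Ok S (fun _ ↦ True) T b) ∧ (Wv S b q ∧ m ≤ S.bl q ∧ ¬ V q) ∧ S.bl q₁ = i₁ ∧
      S.bl q₂ = i₂ ∧ TtV S V Lk T E b q t s c y q₁ q₂ then
    (Fintype.card k : ℂ) ^ (S.rs b q).card *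
      ph S ψ χ b x (cutc S (S.bl q) q t c) (cuty S E (S.bl q) q s y) *
        (Fz b * (Real.exp (-(S.nm b / X)) : ℂ))
  else 0

open Classical in
/-- the coefficient of `q₂` -/
noncomputable def al [Algebra (ZMod p) k] (V : B → Prop) (Dz : Finset B → B → ℂ)
    (ψ : AddChar k ℂ) (E : ℕ) (t s : k) (x : U) (χ : AddChar Λ ℂ) (c y : B → k)
    (P r : Finset B) (q : B) (γ : C) (z : k × k) (q₂ : B) : ℂ :=
  if q₂ ∈ P \ r ∧ S.cls q₂ = S.cl₀ - γ - ∑ q' ∈ r, S.cls q' ∧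
      (c0 S (S.bl q) c q₂, y0 S E (S.bl q) y q₂) = z ∧ ¬ V q₂ then
    AA S ψ χ r x (cutc S (S.bl q) q t c) (cuty S E (S.bl q) q s y) z.1 z.2 q₂ * Dz r q₂
  else 0

open Classical in
/-- the coefficient of `q₁` -/
noncomputable def be [Algebra (ZMod p) k] (V : B → Prop) (Dz : Finset B → B → ℂ)
    (ψ : AddChar k ℂ) (E : ℕ) (t s : k) (x : U) (χ : AddChar Λ ℂ) (c y : B → k)
    (P r : Finset B) (q : B) (γ : C) (z : k × k) (q₁ : B) : ℂ :=
  if q₁ ∈ P \ r ∧ S.cls q₁ = γ ∧ (c0 S (S.bl q) c q₁, y0 S E (S.bl q) y q₁) = z ∧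
      ¬ V q₁ then
    ph S ψ χ r x (cutc S (S.bl q) q t c) (cuty S E (S.bl q) q s y) *
      AA S ψ χ r x (cutc S (S.bl q) q t c) (cuty S E (S.bl q) q s y) z.1 z.2 q₁ * Dz r q₁
  else 0

lemma al_norm [Algebra (ZMod p) k] [Finite k] [Finite Λ] (V : B → Prop)
    (Dz : Finset B → B → ℂ) (hD : ∀ r q, ‖Dz r q‖ ≤ 1)
    (ψ : AddChar k ℂ) (E : ℕ) (t s : k) (x : U) (χ : AddChar Λ ℂ) (c y : B → k)
    (P r : Finset B) (q : B) (γ : C) (z : k × k) (q₂ : B) :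
    ‖al S V Dz ψ E t s x χ c y P r q γ z q₂‖ ≤ 1 := by
  unfold al
  split_ifs
  · rw [norm_mul, AA_norm, one_mul]
    exact hD r q₂
  · simp

lemma be_norm [Algebra (ZMod p) k] [Finite k] [Finite Λ] (V : B → Prop)
    (Dz : Finset B → B → ℂ) (hD : ∀ r q, ‖Dz r q‖ ≤ 1)
    (ψ : AddChar k ℂ) (E : ℕ) (t s : k) (x : U) (χ : AddChar Λ ℂ) (c y : B → k)
    (P r : Finset B) (q : B) (γ : C) (z : k × k) (q₁ : B) :
    ‖be S V Dz ψ E t s x χ c y P r q γ z q₁‖ ≤ 1 := by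
  unfold be
  split_ifs
  · rw [norm_mul, norm_mul, AA_norm, ph_norm, one_mul, one_mul]
    exact hD r q₁
  · simp

open Classical in
lemma gg_eq [Algebra (ZMod p) k] [Fintype k] [Fintype C] (V : B → Prop) (Fz : Finset B → ℂ)
    (Dz : Finset B → B → ℂ)
    (hFD : ∀ (r : Finset B) (q₁ q₂ : B), q₁ ∉ r → q₂ ∉ insert q₁ r → ¬ V q₁ → ¬ V q₂ →
      Fz (insert q₂ (insert q₁ r)) = Fz r * Dz r q₁ * Dz r q₂)
    (ψ : AddChar k ℂ) (Lk : k → k → Prop) (T E i₁ i₂ m : ℕ) (hT : T ≤ i₂) (h21 : i₂ < i₁)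
    (hTm : T ≤ m) (t s : k) (X : ℝ) (hX : 0 < X)
    (x : U) (χ : AddChar Λ ℂ) (c y : B → k) (P r : Finset B) (q : B) (hq : q ∈ r)
    (hcR : cR S V Lk T E i₁ i₂ m t s c y r q) (q₁ q₂ : B)
    (h1 : q₁ ∈ P \ r) (h2 : q₂ ∈ P \ insert q₁ r) :
    gg S V Fz ψ Lk T E i₁ i₂ m t s X x χ c y (insert q₂ (insert q₁ r)) q q₁ q₂ =
      if q₁ ∈ (S.blk i₁).filter (fun q => S.spl q) then
        (if q₂ ∈ (S.blk i₂).filter (fun q => S.spl q) then
          ∑ γ : C, ∑ z ∈ Zs Lk t s,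
            ((Fintype.card k : ℂ) ^ ((S.rs r q).card + (exq i₁ (S.bl q) + exq i₂ (S.bl q))) *
              Fz r) *
            (al S V Dz ψ E t s x χ c y P r q γ z.2 q₂ * be S V Dz ψ E t s x χ c y P r q γ z.1 q₁ *
              Ph S ψ z.1.1 z.1.2 z.2.1 z.2.2 q₁ q₂ *
              (Real.exp (-((S.N q₁ : ℝ) * S.N q₂ / (X / S.nm r))) : ℂ))
        else 0) else 0 := by
  have h1r : q₁ ∉ r := (mem_sdiff.1 h1).2
  have h2' := mem_sdiff.1 h2
  have h2r : q₂ ∉ r := fun h => h2'.2 (mem_insert_of_mem h)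
  have h2P : q₂ ∈ P \ r := mem_sdiff.2 ⟨h2'.1, h2r⟩
  have n1 : q₁ ≠ q := fun h => h1r (h ▸ hq)
  have n2 : q₂ ≠ q := fun h => h2r (h ▸ hq)
  unfold gg
  rw [if_congr (cond_iff S V Lk T E i₁ i₂ m hT h21 hTm t s c y r q q₁ q₂ hq h1r h2'.2) rfl rfl]
  simp only [mem_filter, mem_blk]
  by_cases a1 : S.bl q₁ = i₁ ∧ S.spl q₁
  · rw [if_pos a1]
    by_cases a2 : S.bl q₂ = i₂ ∧ S.spl q₂
    · rw [if_pos a2]
      rw [sum_eq_single (S.cls q₁)]
      · by_cases h3 : (¬ V q₁ ∧ Nz S E (S.bl q) c y q₁ ∧ ¬ Lq S Lk E (S.bl q) t s c y q₁) ∧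
            (¬ V q₂ ∧ Nz S E (S.bl q) c y q₂ ∧ ¬ Lq S Lk E (S.bl q) t s c y q₂) ∧
            S.cls q₂ + (S.cls q₁ + ∑ q' ∈ r, S.cls q') = S.cl₀
        · have h4 : S.cls q₂ = S.cl₀ - S.cls q₁ - ∑ q' ∈ r, S.cls q' := by
            rw [← h3.2.2]
            abel
          rw [if_pos ⟨hcR, ⟨a1.1, h3.1⟩, ⟨a2.1, h3.2.1⟩, h3.2.2⟩]
          have hz : ((c0 S (S.bl q) c q₁, y0 S E (S.bl q) y q₁),
              (c0 S (S.bl q) c q₂, y0 S E (S.bl q) y q₂)) ∈ Zs Lk t s := by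
            unfold Zs
            rw [mem_filter]
            exact ⟨mem_univ _, (Nz_iff S E (S.bl q) c y q₁).1 h3.1.2.1,
              (Nz_iff S E (S.bl q) c y q₂).1 h3.2.1.2.1, fun h => h3.1.2.2 ⟨h3.1.2.1, h⟩,
              fun h => h3.2.1.2.2 ⟨h3.2.1.2.1, h⟩⟩
          rw [sum_eq_single_of_mem _ hz]
          · unfold al be
            rw [if_pos (⟨h1, rfl, rfl, h3.1.1⟩ : q₁ ∈ P \ r ∧ S.cls q₁ = S.cls q₁ ∧
              (c0 S (S.bl q) c q₁, y0 S E (S.bl q) y q₁) =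
              (c0 S (S.bl q) c q₁, y0 S E (S.bl q) y q₁) ∧ ¬ V q₁),
              if_pos ⟨h2P, h4, rfl, h3.2.1.1⟩]
            rw [ph_two S ψ χ r x _ _ q₁ q₂ h1r h2'.2,
              rs_card S i₁ i₂ r q q₁ q₂ hq h1r h2'.2 a1.1 a2.1 a1.2 a2.2,
              hFD r q₁ q₂ h1r h2'.2 h3.1.1 h3.2.1.1]
            rw [cutc_ne S (S.bl q) q q₁ t c n1, cutc_ne S (S.bl q) q q₂ t c n2,
              cuty_ne S E (S.bl q) q q₁ s y n1, cuty_ne S E (S.bl q) q q₂ s y n2]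
            have h5 : S.nm (insert q₂ (insert q₁ r)) = S.N q₂ * (S.N q₁ * S.nm r) := by
              unfold Sys.nm
              rw [prod_insert h2'.2, prod_insert h1r]
            have h6 : ((S.nm (insert q₂ (insert q₁ r)) : ℕ) : ℝ) / X =
                (S.N q₁ : ℝ) * S.N q₂ / (X / S.nm r) := by
              have h7 : (S.nm r : ℝ) ≠ 0 := by exact_mod_cast (nm_pos S r).ne'
              rw [h5]
              push_cast
              field_simp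
            rw [h6]
            ring
          · intro z _ hz'
            by_cases h5 : (c0 S (S.bl q) c q₁, y0 S E (S.bl q) y q₁) = z.1
            · unfold al
              rw [if_neg (fun h => hz' (Prod.ext h5.symm h.2.2.1.symm))]
              ring
            · unfold be
              rw [if_neg (fun h => h5 h.2.2.1)]
              ring
        · rw [if_neg (fun h => h3 ⟨h.2.1.2, h.2.2.1.2, h.2.2.2⟩), sum_eq_zero]
          intro z hz
          by_cases h5 : (c0 S (S.bl q) c q₁, y0 S E (S.bl q) y q₁) = z.1 ∧ ¬ V q₁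
          · unfold al
            rw [if_neg]
            · ring
            · rintro ⟨-, h4, h6, v2⟩
              refine h3 ?_
              unfold Zs at hz
              rw [mem_filter, ← h5.1, ← h6] at hz
              obtain ⟨-, z1, z2, z3, z4⟩ := hz
              refine ⟨⟨h5.2, (Nz_iff S E (S.bl q) c y q₁).2 z1, fun h => z3 h.2⟩,
                ⟨v2, (Nz_iff S E (S.bl q) c y q₂).2 z2, fun h => z4 h.2⟩, ?_⟩
              rw [h4]
              abel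
          · unfold be
            rw [if_neg (fun h => h5 h.2.2)]
            ring
      · intro γ _ hγ
        refine sum_eq_zero fun z _ => ?_
        unfold be
        rw [if_neg (fun h => hγ h.2.1.symm)]
        ring
      · intro h
        exact absurd (mem_univ _) h
    · rw [if_neg a2, if_neg]
      rintro ⟨-, -, h3, -⟩
      exact a2 ⟨h3.1, h3.2.2.1.1⟩
  · rw [if_neg a1, if_neg]
    rintro ⟨-, h3, -⟩
    exact a1 ⟨h3.1, h3.2.2.1.1⟩

open Classical in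
lemma inner_eq [Algebra (ZMod p) k] [Fintype k] [Fintype C] (V : B → Prop) (Fz : Finset B → ℂ)
    (Dz : Finset B → B → ℂ)
    (hFD : ∀ (r : Finset B) (q₁ q₂ : B), q₁ ∉ r → q₂ ∉ insert q₁ r → ¬ V q₁ → ¬ V q₂ →
      Fz (insert q₂ (insert q₁ r)) = Fz r * Dz r q₁ * Dz r q₂)
    (ψ : AddChar k ℂ) (Lk : k → k → Prop) (T E i₁ i₂ m : ℕ) (hT : T ≤ i₂) (h21 : i₂ < i₁)
    (hTm : T ≤ m) (t s : k) (X : ℝ) (hX : 0 < X)
    (x : U) (χ : AddChar Λ ℂ) (c y : B → k) (P r : Finset B) (q : B) (hq : q ∈ r)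
    (hcR : cR S V Lk T E i₁ i₂ m t s c y r q) :
    ∑ q₁ ∈ P \ r, ∑ q₂ ∈ P \ insert q₁ r,
      gg S V Fz ψ Lk T E i₁ i₂ m t s X x χ c y (insert q₂ (insert q₁ r)) q q₁ q₂ =
    ∑ γ : C, ∑ z ∈ Zs Lk t s,
      ((Fintype.card k : ℂ) ^ ((S.rs r q).card + (exq i₁ (S.bl q) + exq i₂ (S.bl q))) *
              Fz r) *
      ∑ q₂ ∈ S.blk i₂ with S.spl q₂, ∑ q₁ ∈ S.blk i₁ with S.spl q₁,
        al S V Dz ψ E t s x χ c y P r q γ z.2 q₂ * be S V Dz ψ E t s x χ c y P r q γ z.1 q₁ *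
              Ph S ψ z.1.1 z.1.2 z.2.1 z.2.2 q₁ q₂ *
              (Real.exp (-((S.N q₁ : ℝ) * S.N q₂ / (X / S.nm r))) : ℂ) := by
  set h : B → B → ℂ := fun q₁ q₂ => ∑ γ : C, ∑ z ∈ Zs Lk t s,
            ((Fintype.card k : ℂ) ^ ((S.rs r q).card + (exq i₁ (S.bl q) + exq i₂ (S.bl q))) *
              Fz r) *
            (al S V Dz ψ E t s x χ c y P r q γ z.2 q₂ * be S V Dz ψ E t s x χ c y P r q γ z.1 q₁ *
              Ph S ψ z.1.1 z.1.2 z.2.1 z.2.2 q₁ q₂ *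
              (Real.exp (-((S.N q₁ : ℝ) * S.N q₂ / (X / S.nm r))) : ℂ)) with hh
  have hq0 : ∀ q₁ q₂, q₁ ∉ P \ r → h q₁ q₂ = 0 := by
    intro q₁ q₂ hq
    rw [hh]
    refine sum_eq_zero fun γ _ => sum_eq_zero fun z _ => ?_
    unfold be
    rw [if_neg (fun h => hq h.1)]
    ring
  have hP0 : ∀ q₁ q₂, q₂ ∉ P \ r → h q₁ q₂ = 0 := by
    intro q₁ q₂ hq
    rw [hh]
    refine sum_eq_zero fun γ _ => sum_eq_zero fun z _ => ?_
    unfold al
    rw [if_neg (fun h => hq h.1)]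
    ring
  have e1 : ∑ q₁ ∈ P \ r, ∑ q₂ ∈ P \ insert q₁ r,
      gg S V Fz ψ Lk T E i₁ i₂ m t s X x χ c y (insert q₂ (insert q₁ r)) q q₁ q₂ =
      ∑ q₁ ∈ P \ r, if q₁ ∈ (S.blk i₁).filter (fun q => S.spl q) then
        ∑ q₂ ∈ P \ r, (if q₂ ∈ (S.blk i₂).filter (fun q => S.spl q) then h q₁ q₂ else 0)
        else 0 := by
    refine sum_congr rfl fun q₁ hq₁ => ?_
    have e2 : ∑ q₂ ∈ P \ insert q₁ r,
        gg S V Fz ψ Lk T E i₁ i₂ m t s X x χ c y (insert q₂ (insert q₁ r)) q q₁ q₂ =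
        ∑ q₂ ∈ P \ insert q₁ r, (if q₁ ∈ (S.blk i₁).filter (fun q => S.spl q) then
          (if q₂ ∈ (S.blk i₂).filter (fun q => S.spl q) then h q₁ q₂ else 0) else 0) :=
      sum_congr rfl fun q₂ hP => gg_eq S V Fz Dz hFD ψ Lk T E i₁ i₂ m hT h21 hTm t s X hX x χ c y P r q
        hq hcR q₁ q₂ hq₁ hP
    rw [e2]
    split_ifs with h1
    · refine sum_subset (sdiff_subset_sdiff subset_rfl (subset_insert _ _)) ?_
      intro q₂ h2 h3
      have h4 : q₂ = q₁ := by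
        by_contra h4
        refine h3 (mem_sdiff.2 ⟨(mem_sdiff.1 h2).1, fun h5 => ?_⟩)
        rcases mem_insert.1 h5 with h6 | h6
        · exact h4 h6
        · exact (mem_sdiff.1 h2).2 h6
      rw [if_neg]
      rw [h4]
      intro h5
      have := (mem_blk S i₂ q₁).1 (mem_filter.1 h5).1
      have := (mem_blk S i₁ q₁).1 (mem_filter.1 h1).1
      omega
    · simp
  rw [e1, sum_swap]
  have e3 : ∀ q₁ ∈ (S.blk i₁).filter (fun q => S.spl q),
      (if q₁ ∈ P \ r then ∑ q₂ ∈ P \ r,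
        (if q₂ ∈ (S.blk i₂).filter (fun q => S.spl q) then h q₁ q₂ else 0) else 0) =
      ∑ q₂ ∈ (S.blk i₂).filter (fun q => S.spl q), h q₁ q₂ := by
    intro q₁ _
    split_ifs with h1
    · rw [sum_swap]
      refine sum_congr rfl fun q₂ _ => ?_
      split_ifs with h2
      · rfl
      · exact (hP0 q₁ q₂ h2).symm
    · exact (sum_eq_zero fun q₂ _ => hq0 q₁ q₂ h1).symm
  rw [sum_congr rfl e3, sum_comm]
  rw [hh]
  simp only [mul_sum]
  calc _ = ∑ q₂ ∈ (S.blk i₂).filter (fun q => S.spl q), ∑ γ : C,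
      ∑ z ∈ Zs Lk t s, ∑ q₁ ∈ (S.blk i₁).filter (fun q => S.spl q),
            ((Fintype.card k : ℂ) ^ ((S.rs r q).card + (exq i₁ (S.bl q) + exq i₂ (S.bl q))) *
              Fz r) *
            (al S V Dz ψ E t s x χ c y P r q γ z.2 q₂ * be S V Dz ψ E t s x χ c y P r q γ z.1 q₁ *
              Ph S ψ z.1.1 z.1.2 z.2.1 z.2.2 q₁ q₂ *
              (Real.exp (-((S.N q₁ : ℝ) * S.N q₂ / (X / S.nm r))) : ℂ)) := by
        refine sum_congr rfl fun q₂ _ => ?_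
        rw [sum_comm]
        exact sum_congr rfl fun γ _ => sum_comm
    _ = _ := by
      rw [sum_comm]
      exact sum_congr rfl fun γ _ => sum_comm

open Classical in
lemma inner_le [Algebra (ZMod p) k] [Fintype k] [Fintype C] [Finite Λ] (V : B → Prop)
    (Fz : Finset B → ℂ) (Dz : Finset B → B → ℂ)
    (hFD : ∀ (r : Finset B) (q₁ q₂ : B), q₁ ∉ r → q₂ ∉ insert q₁ r → ¬ V q₁ → ¬ V q₂ →
      Fz (insert q₂ (insert q₁ r)) = Fz r * Dz r q₁ * Dz r q₂)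
    (hD : ∀ r q, ‖Dz r q‖ ≤ 1) (hF : ∀ r, ‖Fz r‖ ≤ (p : ℝ) ^ r.card)
    (ψ : AddChar k ℂ) (Lk : k → k → Prop) (Cs : k → AddSubgroup k) (M : ℕ) (g : ℝ → ℝ) (K : ℕ)
    (hH : Hyp₃ S ψ Lk Cs M g K)
    (T E i₁ i₂ m : ℕ) (hT1 : 1 ≤ T) (hT : T ≤ i₂) (h21 : i₂ < i₁)
    (hTm : T ≤ m) (t s : k) (ht : t ≠ 0) (hsC : s ∈ Cs t) (hs : s ≠ 0) (X : ℝ) (hX : 0 < X)
    (x : U) (χ : AddChar Λ ℂ) (c y : B → k) (P r : Finset B) (q : B) (hq : q ∈ r) :
    ‖∑ q₁ ∈ P \ r, ∑ q₂ ∈ P \ insert q₁ r,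
      gg S V Fz ψ Lk T E i₁ i₂ m t s X x χ c y (insert q₂ (insert q₁ r)) q q₁ q₂‖ ≤
    Fintype.card C * ((Fintype.card k : ℝ) ^ 6 * (((Fintype.card k : ℝ) * p) ^ r.card *
      (WW K i₁ i₂ * Real.exp (-(S.nm r / (2 * X / 2 ^ (i₁ + i₂))))))) := by
  have hnm : (0 : ℝ) < S.nm r := by exact_mod_cast nm_pos S r
  have hW := WW_nonneg K i₁ i₂
  by_cases hcR : cR S V Lk T E i₁ i₂ m t s c y r q
  · rw [inner_eq S V Fz Dz hFD ψ Lk T E i₁ i₂ m hT h21 hTm t s X hX x χ c y P r q hq hcR]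
    refine (norm_sum_le _ _).trans ?_
    have h4 : (1 : ℝ) ≤ Fintype.card k := by exact_mod_cast Fintype.card_pos
    have h1 : ∀ γ ∈ (univ : Finset C), ‖∑ z ∈ Zs Lk t s,
      ((Fintype.card k : ℂ) ^ ((S.rs r q).card + (exq i₁ (S.bl q) + exq i₂ (S.bl q))) *
        Fz r) *
      ∑ q₂ ∈ S.blk i₂ with S.spl q₂, ∑ q₁ ∈ S.blk i₁ with S.spl q₁,
        al S V Dz ψ E t s x χ c y P r q γ z.2 q₂ * be S V Dz ψ E t s x χ c y P r q γ z.1 q₁ *
              Ph S ψ z.1.1 z.1.2 z.2.1 z.2.2 q₁ q₂ *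
              (Real.exp (-((S.N q₁ : ℝ) * S.N q₂ / (X / S.nm r))) : ℂ)‖ ≤
        (Fintype.card k : ℝ) ^ 6 * (((Fintype.card k : ℝ) * p) ^ r.card *
      (WW K i₁ i₂ * Real.exp (-(S.nm r / (2 * X / 2 ^ (i₁ + i₂)))))) := by
      intro γ _
      refine (norm_sum_le _ _).trans ?_
      have h1' : ∀ z ∈ Zs Lk t s,
        ‖((Fintype.card k : ℂ) ^ ((S.rs r q).card + (exq i₁ (S.bl q) + exq i₂ (S.bl q))) *
          Fz r) *
        ∑ q₂ ∈ S.blk i₂ with S.spl q₂, ∑ q₁ ∈ S.blk i₁ with S.spl q₁,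
        al S V Dz ψ E t s x χ c y P r q γ z.2 q₂ * be S V Dz ψ E t s x χ c y P r q γ z.1 q₁ *
              Ph S ψ z.1.1 z.1.2 z.2.1 z.2.2 q₁ q₂ *
              (Real.exp (-((S.N q₁ : ℝ) * S.N q₂ / (X / S.nm r))) : ℂ)‖ ≤
          ((Fintype.card k : ℝ) ^ 2 * ((Fintype.card k : ℝ) * p) ^ r.card) *
          (WW K i₁ i₂ * Real.exp (-(S.nm r / (2 * X / 2 ^ (i₁ + i₂))))) := by
        intro z hz
        rw [norm_mul, norm_mul, norm_pow, Complex.norm_natCast]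
        unfold Zs at hz
        obtain ⟨-, z1, z2, z3, z4⟩ := mem_filter.1 hz
        obtain ⟨w1, w2, w3⟩ := hH.two t s z.1.1 z.1.2 z.2.1 z.2.2 ht hsC hs z1 z2 z3 z4
        have h2 := hH.bl₃ i₂ i₁ z.1.1 z.1.2 z.2.1 z.2.2 (al S V Dz ψ E t s x χ c y P r q γ z.2)
          (be S V Dz ψ E t s x χ c y P r q γ z.1)
          (X / S.nm r) (by omega) (by omega) (by omega) w1 w2 z2 w3 (by positivity)
          (al_norm S V Dz hD ψ E t s x χ c y P r q γ z.2)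
          (be_norm S V Dz hD ψ E t s x χ c y P r q γ z.1)
        have h3 : (2 : ℝ) ^ (i₂ + i₁) / (2 * (X / S.nm r)) =
            S.nm r / (2 * X / 2 ^ (i₁ + i₂)) := by
          rw [add_comm i₂ i₁]
          field_simp
        have h3' : min (i₂ : ℝ) (i₁ : ℝ) = i₂ := min_eq_left (by exact_mod_cast h21.le)
        have h3'' : (K : ℝ) * 2 ^ (i₂ + i₁) * (i₂ + i₁) ^ K * (2 : ℝ) ^ (-(i₂ : ℝ) / K) =
            WW K i₁ i₂ := by
          unfold WW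
          rw [add_comm i₂ i₁, add_comm (i₂ : ℝ) (i₁ : ℝ)]
        rw [h3, h3', h3''] at h2
        have h5 : (S.rs r q).card ≤ r.card :=
          (card_filter_le _ _).trans (card_le_card (erase_subset _ _))
        have h6 := exq_le i₁ (S.bl q)
        have h7 := exq_le i₂ (S.bl q)
        unfold Ph
        refine mul_le_mul ?_ h2 (norm_nonneg _) (by positivity)
        calc (Fintype.card k : ℝ) ^ ((S.rs r q).card + (exq i₁ (S.bl q) + exq i₂ (S.bl q))) *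
            ‖Fz r‖ ≤ (Fintype.card k : ℝ) ^ (2 + r.card) * (p : ℝ) ^ r.card :=
              mul_le_mul (pow_le_pow_right₀ h4 (by omega)) (hF r) (norm_nonneg _) (by positivity)
          _ = _ := by rw [mul_pow, pow_add]; ring
      refine (sum_le_sum h1').trans ?_
      rw [sum_const, nsmul_eq_mul]
      have h7 : ((Zs Lk t s).card : ℝ) ≤ (Fintype.card k : ℝ) ^ 4 := by
        have h8 : (Zs Lk t s).card ≤ Fintype.card k ^ 4 := by
          unfold Zs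
          refine (card_filter_le _ _).trans (le_of_eq ?_)
          rw [card_univ, Fintype.card_prod, Fintype.card_prod]
          ring
        exact_mod_cast h8
      refine (mul_le_mul_of_nonneg_right h7 (by positivity)).trans (le_of_eq ?_)
      ring
    refine (sum_le_sum h1).trans ?_
    rw [sum_const, nsmul_eq_mul, card_univ]
  · have h1 : ∑ q₁ ∈ P \ r, ∑ q₂ ∈ P \ insert q₁ r,
        gg S V Fz ψ Lk T E i₁ i₂ m t s X x χ c y (insert q₂ (insert q₁ r)) q q₁ q₂ = 0 := by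
      refine sum_eq_zero fun q₁ h1 => sum_eq_zero fun q₂ h2 => ?_
      unfold gg
      rw [if_neg]
      rw [cond_iff S V Lk T E i₁ i₂ m hT h21 hTm t s c y r q q₁ q₂ hq (mem_sdiff.1 h1).2
        (mem_sdiff.1 h2).2]
      exact fun h => hcR h.1
    rw [h1, norm_zero]
    positivity

open Classical in
lemma fixed_le (hdec : C_DEC) [Algebra (ZMod p) k] [Fintype k] [Fintype C] [Finite Λ]
    (V : B → Prop)
    (Fz : Finset B → ℂ) (Dz : Finset B → B → ℂ)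
    (hFD : ∀ (r : Finset B) (q₁ q₂ : B), q₁ ∉ r → q₂ ∉ insert q₁ r → ¬ V q₁ → ¬ V q₂ →
      Fz (insert q₂ (insert q₁ r)) = Fz r * Dz r q₁ * Dz r q₂)
    (hD : ∀ r q, ‖Dz r q‖ ≤ 1) (hF : ∀ r, ‖Fz r‖ ≤ (p : ℝ) ^ r.card)
    (ψ : AddChar k ℂ) (Lk : k → k → Prop) (Cs : k → AddSubgroup k) (M : ℕ) (g : ℝ → ℝ) (K : ℕ)
    (hH : Hyp₃ S ψ Lk Cs M g K)
    (T E i₁ i₂ m : ℕ) (hT1 : 1 ≤ T) (hT : T ≤ i₂) (h21 : i₂ < i₁)
    (hTm : T ≤ m) (t s : k) (ht : t ≠ 0) (hsC : s ∈ Cs t) (hs : s ≠ 0) (X : ℝ) (hX : 0 < X)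
    (x : U) (χ : AddChar Λ ℂ) (c y : B → k) (P : Finset B) :
    ‖∑ b ∈ P.powerset with (S.Fam b ∧ Ok S (fun _ ↦ True) T b),
      ∑ q ∈ b with (Wv S b q ∧ m ≤ S.bl q ∧ ¬ V q),
      ∑ q₁ ∈ b with S.bl q₁ = i₁, ∑ q₂ ∈ b with S.bl q₂ = i₂,
      (if TtV S V Lk T E b q t s c y q₁ q₂ then
      (Fintype.card k : ℂ) ^ (S.rs b q).card *
      ph S ψ χ b x (cutc S (S.bl q) q t c) (cuty S E (S.bl q) q s y) *
      (Fz b * (Real.exp (-(S.nm b / X)) : ℂ)) else 0)‖ ≤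
    ∑ r ∈ P.powerset, r.card * (Fintype.card C * ((Fintype.card k : ℝ) ^ 6 *
      (((Fintype.card k : ℝ) * p) ^ r.card *
      (WW K i₁ i₂ * Real.exp (-(S.nm r / (2 * X / 2 ^ (i₁ + i₂)))))))) := by
  have e1 : ∑ b ∈ P.powerset with (S.Fam b ∧ Ok S (fun _ ↦ True) T b),
      ∑ q ∈ b with (Wv S b q ∧ m ≤ S.bl q ∧ ¬ V q),
      ∑ q₁ ∈ b with S.bl q₁ = i₁, ∑ q₂ ∈ b with S.bl q₂ = i₂,
      (if TtV S V Lk T E b q t s c y q₁ q₂ then
      (Fintype.card k : ℂ) ^ (S.rs b q).card *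
      ph S ψ χ b x (cutc S (S.bl q) q t c) (cuty S E (S.bl q) q s y) *
      (Fz b * (Real.exp (-(S.nm b / X)) : ℂ)) else 0) =
      ∑ b ∈ P.powerset, ∑ q₁ ∈ b, ∑ q₂ ∈ b, ∑ q ∈ b,
        gg S V Fz ψ Lk T E i₁ i₂ m t s X x χ c y b q q₁ q₂ := by
    rw [sum_filter]
    refine sum_congr rfl fun b _ => ?_
    have e2 : ∑ q₁ ∈ b, ∑ q₂ ∈ b, ∑ q ∈ b,
        gg S V Fz ψ Lk T E i₁ i₂ m t s X x χ c y b q q₁ q₂ =
        ∑ q ∈ b, ∑ q₁ ∈ b, ∑ q₂ ∈ b, gg S V Fz ψ Lk T E i₁ i₂ m t s X x χ c y b q q₁ q₂ :=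
      Eq.trans (sum_congr rfl fun q₁ _ => sum_comm) sum_comm
    rw [e2]
    by_cases h1 : S.Fam b ∧ Ok S (fun _ ↦ True) T b
    · rw [if_pos h1, sum_filter]
      refine sum_congr rfl fun q _ => ?_
      by_cases h2 : Wv S b q ∧ m ≤ S.bl q ∧ ¬ V q
      · rw [if_pos h2, sum_filter]
        refine sum_congr rfl fun q₁ _ => ?_
        by_cases h3 : S.bl q₁ = i₁
        · rw [if_pos h3, sum_filter]
          refine sum_congr rfl fun q₂ _ => ?_
          unfold gg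
          by_cases h4 : S.bl q₂ = i₂
          · rw [if_pos h4]
            by_cases h5 : TtV S V Lk T E b q t s c y q₁ q₂
            · rw [if_pos h5, if_pos ⟨h1, h2, h3, h4, h5⟩]
            · rw [if_neg h5, if_neg (fun h => h5 h.2.2.2.2)]
          · rw [if_neg h4, if_neg (fun h => h4 h.2.2.2.1)]
        · rw [if_neg h3]
          refine (sum_eq_zero fun q₂ _ => ?_).symm
          unfold gg
          rw [if_neg (fun h => h3 h.2.2.1)]
      · rw [if_neg h2]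
        refine (sum_eq_zero fun q₁ _ => sum_eq_zero fun q₂ _ => ?_).symm
        unfold gg
        rw [if_neg (fun h => h2 h.2.1)]
    · rw [if_neg h1]
      refine (sum_eq_zero fun q _ => sum_eq_zero fun q₁ _ => sum_eq_zero fun q₂ _ => ?_).symm
      unfold gg
      rw [if_neg (fun h => h1 h.1)]
  rw [e1, decomp hdec P (fun b q₁ q₂ => ∑ q ∈ b, gg S V Fz ψ Lk T E i₁ i₂ m t s X x χ c y b q q₁ q₂)
    (fun b q => by
      refine sum_eq_zero fun q' _ => ?_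
      unfold gg
      rw [if_neg]
      rintro ⟨-, -, h1, h2, -⟩
      omega)]
  refine (norm_sum_le _ _).trans (sum_le_sum fun r _ => ?_)
  have e3 : ∑ q₁ ∈ P \ r, ∑ q₂ ∈ P \ insert q₁ r, ∑ q ∈ insert q₂ (insert q₁ r),
      gg S V Fz ψ Lk T E i₁ i₂ m t s X x χ c y (insert q₂ (insert q₁ r)) q q₁ q₂ =
      ∑ q ∈ r, ∑ q₁ ∈ P \ r, ∑ q₂ ∈ P \ insert q₁ r,
      gg S V Fz ψ Lk T E i₁ i₂ m t s X x χ c y (insert q₂ (insert q₁ r)) q q₁ q₂ := by
    rw [sum_comm (s := r)]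
    refine sum_congr rfl fun q₁ h1 => ?_
    rw [sum_comm (s := r)]
    refine sum_congr rfl fun q₂ h2 => ?_
    rw [sum_insert (mem_sdiff.1 h2).2, sum_insert (mem_sdiff.1 h1).2]
    have e4 : gg S V Fz ψ Lk T E i₁ i₂ m t s X x χ c y (insert q₂ (insert q₁ r)) q₂ q₁ q₂ = 0 := by
      unfold gg
      rw [if_neg (fun h => h.2.2.2.2.ne₂ rfl)]
    have e5 : gg S V Fz ψ Lk T E i₁ i₂ m t s X x χ c y (insert q₂ (insert q₁ r)) q₁ q₁ q₂ = 0 := by
      unfold gg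
      rw [if_neg (fun h => h.2.2.2.2.ne₁ rfl)]
    rw [e4, e5, zero_add, zero_add]
  rw [e3]
  refine (norm_sum_le _ _).trans ?_
  refine (sum_le_sum fun q hq => inner_le S V Fz Dz hFD hD hF ψ Lk Cs M g K hH T E i₁ i₂ m hT1 hT h21 hTm t s ht
    hsC hs X hX x χ c y P r q hq).trans ?_
  rw [sum_const, nsmul_eq_mul]

open Classical in
lemma total_le (hdec : C_DEC) [Algebra (ZMod p) k] [Fintype k] [Fintype C] [Fintype U]
    [Fintype Λ] (V : B → Prop)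
    (Fz : Finset B → ℂ) (Dz : Finset B → B → ℂ)
    (hFD : ∀ (r : Finset B) (q₁ q₂ : B), q₁ ∉ r → q₂ ∉ insert q₁ r → ¬ V q₁ → ¬ V q₂ →
      Fz (insert q₂ (insert q₁ r)) = Fz r * Dz r q₁ * Dz r q₂)
    (hD : ∀ r q, ‖Dz r q‖ ≤ 1) (hF : ∀ r, ‖Fz r‖ ≤ (p : ℝ) ^ r.card)
    (ψ : AddChar k ℂ) (Lk : k → k → Prop) (Cs : k → AddSubgroup k) (M : ℕ) (g : ℝ → ℝ) (K : ℕ)
    (hH : Hyp₃ S ψ Lk Cs M g K)
    (T E i₁ i₂ m : ℕ) (hT1 : 1 ≤ T) (hT : T ≤ i₂) (h21 : i₂ < i₁)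
    (hTm : T ≤ m) (t s : k) (ht : t ≠ 0) (hsC : s ∈ Cs t) (hs : s ≠ 0) (X : ℝ) (hX : 0 < X)
    (P : Finset B) :
    ‖∑ b ∈ P.powerset with (S.Fam b ∧ Ok S (fun _ ↦ True) T b),
      ∑ q ∈ b with (Wv S b q ∧ m ≤ S.bl q ∧ ¬ V q),
      ∑ q₁ ∈ b with S.bl q₁ = i₁, ∑ q₂ ∈ b with S.bl q₂ = i₂,
      ful₃ S ψ E P b q t s (fun c y ↦ TtV S V Lk T E b q t s c y q₁ q₂) *
        (Fz b * (Real.exp (-(S.nm b / X)) : ℂ))‖ ≤
    Fintype.card U * ∑ r ∈ P.powerset, r.card * (Fintype.card C * ((Fintype.card k : ℝ) ^ 6 *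
      (((Fintype.card k : ℝ) * p) ^ r.card *
      (WW K i₁ i₂ * Real.exp (-(S.nm r / (2 * X / 2 ^ (i₁ + i₂)))))))) := by
  have hW := WW_nonneg K i₁ i₂
  set MM := ∑ r ∈ P.powerset, r.card * (Fintype.card C * ((Fintype.card k : ℝ) ^ 6 *
      (((Fintype.card k : ℝ) * p) ^ r.card *
      (WW K i₁ i₂ * Real.exp (-(S.nm r / (2 * X / 2 ^ (i₁ + i₂)))))))) with hM
  have hM0 : 0 ≤ MM := by
    rw [hM]
    positivity
  set Z : Finset (U × AddChar Λ ℂ × (B → k) × (B → k)) :=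
    (univ : Finset U) ×ˢ (univ : Finset (AddChar Λ ℂ)) ×ˢ
        (lab k P) ×ˢ (lab k P) with hZ
  have hlab : 0 < (lab k P).card := card_pos.2 ⟨0, mem_lab.2 fun _ _ => rfl⟩
  have e1 : ∑ b ∈ P.powerset with (S.Fam b ∧ Ok S (fun _ ↦ True) T b),
      ∑ q ∈ b with (Wv S b q ∧ m ≤ S.bl q ∧ ¬ V q),
      ∑ q₁ ∈ b with S.bl q₁ = i₁, ∑ q₂ ∈ b with S.bl q₂ = i₂,
      ful₃ S ψ E P b q t s (fun c y ↦ TtV S V Lk T E b q t s c y q₁ q₂) *
        (Fz b * (Real.exp (-(S.nm b / X)) : ℂ)) =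
      ∑ z ∈ Z, (1 / (Fintype.card Λ * ((lab k P).card : ℂ) ^ 2)) *
      ∑ b ∈ P.powerset with (S.Fam b ∧ Ok S (fun _ ↦ True) T b),
      ∑ q ∈ b with (Wv S b q ∧ m ≤ S.bl q ∧ ¬ V q),
      ∑ q₁ ∈ b with S.bl q₁ = i₁, ∑ q₂ ∈ b with S.bl q₂ = i₂,
      (if TtV S V Lk T E b q t s z.2.2.1 z.2.2.2 q₁ q₂ then
      (Fintype.card k : ℂ) ^ (S.rs b q).card *
      ph S ψ z.2.1 b z.1 (cutc S (S.bl q) q t z.2.2.1)
        (cuty S E (S.bl q) q s z.2.2.2) *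
      (Fz b * (Real.exp (-(S.nm b / X)) : ℂ)) else 0) := by
    simp only [ful_eq, mul_sum]
    rw [← hZ, sum_comm (s := Z)]
    refine sum_congr rfl fun b _ => ?_
    rw [sum_comm (s := Z)]
    refine sum_congr rfl fun q _ => ?_
    rw [sum_comm (s := Z)]
    refine sum_congr rfl fun q₁ _ => ?_
    rw [sum_comm (s := Z)]
  rw [e1]
  refine (norm_sum_le _ _).trans ?_
  have h1 : ∀ z ∈ Z, ‖(1 / (Fintype.card Λ * ((lab k P).card : ℂ) ^ 2)) *
      ∑ b ∈ P.powerset with (S.Fam b ∧ Ok S (fun _ ↦ True) T b),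
      ∑ q ∈ b with (Wv S b q ∧ m ≤ S.bl q ∧ ¬ V q),
      ∑ q₁ ∈ b with S.bl q₁ = i₁, ∑ q₂ ∈ b with S.bl q₂ = i₂,
      (if TtV S V Lk T E b q t s z.2.2.1 z.2.2.2 q₁ q₂ then
      (Fintype.card k : ℂ) ^ (S.rs b q).card *
      ph S ψ z.2.1 b z.1 (cutc S (S.bl q) q t z.2.2.1)
        (cuty S E (S.bl q) q s z.2.2.2) *
      (Fz b * (Real.exp (-(S.nm b / X)) : ℂ)) else 0)‖ ≤
      1 / (Fintype.card Λ * ((lab k P).card : ℝ) ^ 2) * MM := by
    intro z hz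
    rw [norm_mul, norm_div, norm_one, norm_mul, norm_pow, Complex.norm_natCast,
      Complex.norm_natCast]
    exact mul_le_mul_of_nonneg_left (fixed_le S hdec V Fz Dz hFD hD hF ψ Lk Cs M g K hH T E i₁ i₂ m hT1 hT h21 hTm
      t s ht hsC hs X hX z.1 z.2.1 z.2.2.1 z.2.2.2 P) (by positivity)
  refine (sum_le_sum h1).trans ?_
  rw [sum_const, nsmul_eq_mul]
  have h3 : Z.card = Fintype.card U * (Fintype.card Λ *
      ((lab k P).card * (lab k P).card)) := by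
    rw [hZ, card_product, card_product, card_product, card_univ,
      card_univ, AddChar.card_eq]
  have h4 : (Z.card : ℝ) = Fintype.card U *
      (Fintype.card Λ * ((lab k P).card : ℝ) ^ 2) := by
    rw [h3]
    push_cast
    ring
  have h7 : (0 : ℝ) < (lab k P).card := by exact_mod_cast hlab
  have h8 : (0 : ℝ) < Fintype.card Λ := by exact_mod_cast Fintype.card_pos
  rw [h4]
  refine le_of_eq ?_
  field_simp

open Classical in
/-- the Fourier component of the weight -/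
noncomputable def FF (V : B → Prop) (ψ₁ : AddChar (ZMod p) ℂ)
    (h : Finset B → (B → ZMod p) → ℂ) (z : B → ZMod p) (b : Finset B) : ℂ :=
  (p : ℂ) ^ (b.filter V).card * h (b.filter V) z *
    ∏ q' ∈ b with V q', ∏ q ∈ b with ¬ V q, ψ₁ (z q' * S.kap q' q)

open Classical in
/-- the phase at `q` -/
noncomputable def DD (V : B → Prop) (ψ₁ : AddChar (ZMod p) ℂ) (z : B → ZMod p) (r : Finset B)
    (q : B) : ℂ :=
  ∏ q' ∈ r with V q', ψ₁ (z q' * S.kap q' q)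

lemma FF_two (V : B → Prop) (ψ₁ : AddChar (ZMod p) ℂ)
    (h : Finset B → (B → ZMod p) → ℂ) (z : B → ZMod p) [DecidableEq B] (r : Finset B) (q₁ q₂ : B)
    (h1 : q₁ ∉ r) (h2 : q₂ ∉ insert q₁ r) (v1 : ¬ V q₁) (v2 : ¬ V q₂) :
    FF S V ψ₁ h z (insert q₂ (insert q₁ r)) =
      FF S V ψ₁ h z r * DD S V ψ₁ z r q₁ * DD S V ψ₁ z r q₂ := by
  classical
  unfold FF DD
  have e1 : (insert q₂ (insert q₁ r)).filter V = r.filter V := by
    rw [filter_insert, if_neg v2, filter_insert, if_neg v1]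
  have e2 : (insert q₂ (insert q₁ r)).filter (fun q => ¬ V q) =
      insert q₂ (insert q₁ (r.filter fun q => ¬ V q)) := by
    rw [filter_insert, if_pos v2, filter_insert, if_pos v1]
  have h3 : q₁ ∉ r.filter fun q => ¬ V q := fun h => h1 (mem_filter.1 h).1
  have h4 : q₂ ∉ insert q₁ (r.filter fun q => ¬ V q) := by
    intro h
    rcases mem_insert.1 h with h | h
    · exact h2 (h ▸ mem_insert_self _ _)
    · exact h2 (mem_insert_of_mem (mem_filter.1 h).1)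
  rw [e1, e2]
  simp only [prod_insert h4, prod_insert h3, prod_mul_distrib]
  ring

lemma DD_norm [Fact p.Prime] (V : B → Prop) (ψ₁ : AddChar (ZMod p) ℂ) (z : B → ZMod p)
    (r : Finset B) (q : B) : ‖DD S V ψ₁ z r q‖ ≤ 1 := by
  unfold DD
  rw [norm_prod, prod_eq_one fun q' _ => AddChar.norm_apply _ _]

lemma FF_norm [Fact p.Prime] (V : B → Prop) (ψ₁ : AddChar (ZMod p) ℂ)
    (h : Finset B → (B → ZMod p) → ℂ) (hh : ∀ D z, ‖h D z‖ ≤ 1) (z : B → ZMod p)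
    (r : Finset B) : ‖FF S V ψ₁ h z r‖ ≤ (p : ℝ) ^ r.card := by
  classical
  unfold FF
  have h1 : ‖∏ q' ∈ r with V q', ∏ q ∈ r with ¬ V q, ψ₁ (z q' * S.kap q' q)‖ = 1 := by
    rw [norm_prod, prod_eq_one]
    intro q' _
    rw [norm_prod, prod_eq_one fun q _ => AddChar.norm_apply _ _]
  rw [norm_mul, norm_mul, h1, mul_one, norm_pow, Complex.norm_natCast]
  have hp : (1 : ℝ) ≤ p := by exact_mod_cast (Fact.out : p.Prime).one_le
  calc (p : ℝ) ^ (r.filter V).card * ‖h (r.filter V) z‖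
      ≤ (p : ℝ) ^ r.card * 1 := mul_le_mul (pow_le_pow_right₀ hp (card_filter_le _ _))
        (hh _ _) (norm_nonneg _) (by positivity)
    _ = _ := mul_one _

lemma ex_char (p : ℕ) [Fact p.Prime] : ∃ ψ₁ : AddChar (ZMod p) ℂ, ψ₁ ≠ 1 := by
  refine ⟨ZMod.stdAddChar, ?_⟩
  have h := ZMod.isPrimitive_stdAddChar p
  have h1 := h (one_ne_zero)
  rwa [AddChar.mulShift_one] at h1

open Classical in
theorem t_osbg (hfou : T_FOU) : T_OSBG := by
  intro p _ B B₀ k U Λ C _ _ _ _ _ _ _ _ _ _ _ S ψ Lk Cs M κ g K hG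
  have hH : Hyp₃ S ψ Lk Cs M g K := hG.toHyp₃
  have hdec : C_DEC := Pool.Agent.Helper22.PP.c_dec
  have : Fintype C := Fintype.ofFinite C
  obtain ⟨ψ₁, hψ₁⟩ := ex_char p
  set n0 := Fintype.card k * p * K with hn0
  set C1 : ℕ := 4 * Fintype.card U * Fintype.card k ^ 7 * p * Fintype.card C * K ^ 3 * 3 ^ n0
    with hC1
  refine ⟨C1 + n0, fun V G hWG E T i₁ i₂ m t s X P hT1 hT h21 hTm ht hsC hs hX => ?_⟩
  have hX0 : 0 < X := by linarith
  have hp1 : 1 ≤ p := (Fact.out : p.Prime).one_le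
  have hp1' : (1 : ℝ) ≤ p := by exact_mod_cast hp1
  -- the Fourier expansion
  obtain ⟨h, hh1, hh2, hh3⟩ := hfou p B B₀ k U Λ C S ψ₁ hψ₁ V G hWG P
  have hmain : ‖∑ b ∈ P.powerset with (S.Fam b ∧ Ok S (fun _ ↦ True) T b),
      ∑ q ∈ b with (Wv S b q ∧ m ≤ S.bl q ∧ ¬ V q),
        ∑ q₁ ∈ b with S.bl q₁ = i₁, ∑ q₂ ∈ b with S.bl q₂ = i₂,
          (G b : ℂ) * ful₃ S ψ E P b q t s (fun c y ↦ TtV S V Lk T E b q t s c y q₁ q₂) *
            (Real.exp (-(S.nm b / X)) : ℂ)‖ ≤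
      Fintype.card U * ∑ r ∈ P.powerset, r.card * (Fintype.card C * ((Fintype.card k : ℝ) ^ 6 *
      (((Fintype.card k : ℝ) * p) ^ r.card *
      (WW K i₁ i₂ * Real.exp (-(S.nm r / (2 * X / 2 ^ (i₁ + i₂)))))))) := by
    set MM := Fintype.card U * ∑ r ∈ P.powerset, r.card * (Fintype.card C *
      ((Fintype.card k : ℝ) ^ 6 * (((Fintype.card k : ℝ) * p) ^ r.card *
      (WW K i₁ i₂ * Real.exp (-(S.nm r / (2 * X / 2 ^ (i₁ + i₂)))))))) with hMM
    have e1 : ∑ b ∈ P.powerset with (S.Fam b ∧ Ok S (fun _ ↦ True) T b),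
      ∑ q ∈ b with (Wv S b q ∧ m ≤ S.bl q ∧ ¬ V q),
        ∑ q₁ ∈ b with S.bl q₁ = i₁, ∑ q₂ ∈ b with S.bl q₂ = i₂,
          (G b : ℂ) * ful₃ S ψ E P b q t s (fun c y ↦ TtV S V Lk T E b q t s c y q₁ q₂) *
            (Real.exp (-(S.nm b / X)) : ℂ) =
      ∑ z ∈ lab (ZMod p) P, (1 / (p : ℂ)) ^ P.card *
      ∑ b ∈ P.powerset with (S.Fam b ∧ Ok S (fun _ ↦ True) T b),
      ∑ q ∈ b with (Wv S b q ∧ m ≤ S.bl q ∧ ¬ V q),
        ∑ q₁ ∈ b with S.bl q₁ = i₁, ∑ q₂ ∈ b with S.bl q₂ = i₂,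
          ful₃ S ψ E P b q t s (fun c y ↦ TtV S V Lk T E b q t s c y q₁ q₂) *
            (FF S V ψ₁ h z b * (Real.exp (-(S.nm b / X)) : ℂ)) := by
      simp only [mul_sum]
      rw [sum_comm (s := lab (ZMod p) P)]
      refine sum_congr rfl fun b hb => ?_
      rw [sum_comm (s := lab (ZMod p) P)]
      refine sum_congr rfl fun q _ => ?_
      rw [sum_comm (s := lab (ZMod p) P)]
      refine sum_congr rfl fun q₁ _ => ?_
      rw [sum_comm (s := lab (ZMod p) P)]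
      refine sum_congr rfl fun q₂ _ => ?_
      rw [hh3 b (mem_powerset.1 (mem_filter.1 hb).1)]
      rw [mul_sum, sum_mul, sum_mul]
      refine sum_congr rfl fun z _ => ?_
      unfold FF
      ring
    rw [e1]
    refine (norm_sum_le _ _).trans ?_
    have e2 : ∀ z ∈ lab (ZMod p) P, ‖(1 / (p : ℂ)) ^ P.card *
      ∑ b ∈ P.powerset with (S.Fam b ∧ Ok S (fun _ ↦ True) T b),
      ∑ q ∈ b with (Wv S b q ∧ m ≤ S.bl q ∧ ¬ V q),
        ∑ q₁ ∈ b with S.bl q₁ = i₁, ∑ q₂ ∈ b with S.bl q₂ = i₂,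
          ful₃ S ψ E P b q t s (fun c y ↦ TtV S V Lk T E b q t s c y q₁ q₂) *
            (FF S V ψ₁ h z b * (Real.exp (-(S.nm b / X)) : ℂ))‖ ≤
        (1 / (p : ℝ)) ^ P.card * MM := by
      intro z _
      rw [norm_mul, norm_pow, norm_div, norm_one, Complex.norm_natCast]
      exact mul_le_mul_of_nonneg_left (total_le S hdec V (FF S V ψ₁ h z) (DD S V ψ₁ z)
        (fun r q₁ q₂ => FF_two S V ψ₁ h z r q₁ q₂) (DD_norm S V ψ₁ z) (FF_norm S V ψ₁ h hh1 z)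
        ψ Lk Cs M g K hH T E i₁ i₂ m hT1 hT h21 hTm t s ht hsC hs X hX0 P) (by positivity)
    refine (sum_le_sum e2).trans ?_
    rw [sum_const, nsmul_eq_mul, (Pool.Agent.Helper83.PP.c_lab B (ZMod p) P).1, ZMod.card]
    rw [← mul_assoc]
    have e3 : ((p ^ P.card : ℕ) : ℝ) * (1 / (p : ℝ)) ^ P.card = 1 := by
      push_cast
      rw [← mul_pow, mul_one_div, div_self (by positivity), one_pow]
    rw [e3, one_mul]
  refine hmain.trans ?_
  set Y : ℝ := 2 * X / 2 ^ (i₁ + i₂) with hY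
  have hY0 : 0 < Y := by positivity
  have h2ij : (2 : ℝ) ≤ 2 ^ (i₁ + i₂) := by
    calc (2 : ℝ) = 2 ^ 1 := by norm_num
      _ ≤ 2 ^ (i₁ + i₂) := pow_le_pow_right₀ (by norm_num) (by omega)
  have hYX : Y ≤ X := by
    rw [hY, div_le_iff₀ (by positivity)]
    nlinarith
  set w : ℝ := (2 : ℝ) ^ (-(i₂ : ℝ) / K) with hw
  have hw0 : 0 ≤ w := by positivity
  have hWW : WW K i₁ i₂ = K * 2 ^ (i₁ + i₂) * (i₁ + i₂) ^ K * w := rfl
  have hQ1 : 1 ≤ Fintype.card k := Fintype.card_pos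
  have hQ1' : (1 : ℝ) ≤ Fintype.card k := by exact_mod_cast hQ1
  have hpQ : (p : ℝ) ≤ Fintype.card k := by
    have h1 : Fintype.card (ZMod p) ≤ Fintype.card k :=
      Fintype.card_le_of_injective _ (algebraMap (ZMod p) k).injective
    rw [ZMod.card] at h1
    exact_mod_cast h1
  have hK1 : (1 : ℝ) ≤ K := by exact_mod_cast hH.one_le
  have hgX : 1 ≤ g X := hH.g_one X
  have hgY : g Y ≤ K * g X := hH.g_mono Y X hYX
  have h1 := hG.htG (fun _ => Fintype.card k * p + 1) (fun q => ⟨by positivity, by nlinarith⟩)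
    Y hY0 P
  simp only [prod_const, add_sub_cancel_right] at h1
  have h2 : ∑ q ∈ S.upto Y, ((Fintype.card k : ℝ) * p) / S.N q ≤
      n0 * (1 + Real.log (lg X + 1)) := by
    have h3 := upto_sum S ψ g K hH.toHyp₀ X Y hYX
    have h4 : ∑ q ∈ S.upto Y, ((Fintype.card k : ℝ) * p) / S.N q =
        ((Fintype.card k : ℝ) * p) * ∑ q ∈ S.upto Y, (1 : ℝ) / S.N q := by
      rw [mul_sum]
      exact sum_congr rfl fun q _ => by ring
    rw [h4, hn0]
    push_cast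
    rw [mul_assoc ((Fintype.card k : ℝ) * p)]
    exact mul_le_mul_of_nonneg_left h3 (by positivity)
  have hL0 : (0 : ℝ) < (lg X : ℝ) + 1 := by positivity
  have h3 : Real.exp (∑ q ∈ S.upto Y, ((Fintype.card k : ℝ) * p) / S.N q) ≤
      3 ^ n0 * ((lg X : ℝ) + 2) ^ n0 := by
    calc _ ≤ Real.exp (n0 * (1 + Real.log (lg X + 1))) := Real.exp_le_exp.2 h2
      _ = (Real.exp 1 * (lg X + 1)) ^ n0 := by
        rw [Real.exp_nat_mul, Real.exp_add, Real.exp_log hL0]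
      _ ≤ (3 * ((lg X : ℝ) + 2)) ^ n0 := by
        have h4 : Real.exp 1 ≤ 3 := by
          have := Real.exp_one_lt_d9
          linarith
        refine pow_le_pow_left₀ (by positivity) ?_ _
        refine mul_le_mul h4 (by linarith) hL0.le (by norm_num)
      _ = _ := by rw [mul_pow]
  have hmin : min 1 Y ≤ 2 * min 1 (X / 2 ^ (i₁ + i₂)) := by
    have h5 : Y = 2 * (X / 2 ^ (i₁ + i₂)) := by
      rw [hY]
      ring
    rw [h5]
    have h6 : 0 < X / 2 ^ (i₁ + i₂) := by positivity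
    rcases le_total 1 (X / 2 ^ (i₁ + i₂)) with h7 | h7
    · rw [min_eq_left h7]
      exact (min_le_left _ _).trans (by norm_num)
    · rw [min_eq_right h7]
      exact min_le_right _ _
  set mm : ℝ := min 1 (X / 2 ^ (i₁ + i₂)) with hmm
  have hmm0 : 0 ≤ mm := by
    rw [hmm]
    exact le_min (by norm_num) (by positivity)
  have hW := WW_nonneg K i₁ i₂
  -- the sum over `r`
  have h8 : ∑ r ∈ P.powerset, r.card * (Fintype.card C * ((Fintype.card k : ℝ) ^ 6 *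
      (((Fintype.card k : ℝ) * p) ^ r.card *
      (WW K i₁ i₂ * Real.exp (-(S.nm r / Y)))))) ≤
      Fintype.card C * (Fintype.card k : ℝ) ^ 7 * p * WW K i₁ i₂ *
        (K * (Y * (2 * mm) * (K * g X)) * (3 ^ n0 * ((lg X : ℝ) + 2) ^ n0)) := by
    have e1 : ∑ r ∈ P.powerset, r.card * (Fintype.card C * ((Fintype.card k : ℝ) ^ 6 *
        (((Fintype.card k : ℝ) * p) ^ r.card *
        (WW K i₁ i₂ * Real.exp (-(S.nm r / Y)))))) ≤
        Fintype.card C * (Fintype.card k : ℝ) ^ 7 * p * WW K i₁ i₂ *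
        ∑ r ∈ P.powerset, ((Fintype.card k : ℝ) * p + 1) ^ r.card *
          Real.exp (-(S.nm r / Y)) := by
      rw [mul_sum]
      refine sum_le_sum fun r _ => ?_
      have h9 := bern ((Fintype.card k : ℝ) * p) (by positivity) r.card
      have h10 : 0 ≤ Fintype.card C * (Fintype.card k : ℝ) ^ 6 * WW K i₁ i₂ *
        Real.exp (-(S.nm r / Y)) := by positivity
      calc _ = (Fintype.card C * (Fintype.card k : ℝ) ^ 6 * WW K i₁ i₂ *
          Real.exp (-(S.nm r / Y))) * (r.card * ((Fintype.card k : ℝ) * p) ^ r.card) := by ring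
        _ ≤ (Fintype.card C * (Fintype.card k : ℝ) ^ 6 * WW K i₁ i₂ *
          Real.exp (-(S.nm r / Y))) * (((Fintype.card k : ℝ) * p) *
            ((Fintype.card k : ℝ) * p + 1) ^ r.card) := mul_le_mul_of_nonneg_left h9 h10
        _ = _ := by ring
    refine e1.trans ?_
    refine mul_le_mul_of_nonneg_left ?_ (by positivity)
    refine h1.trans ?_
    have hgY0 : 0 ≤ g Y := le_trans (by norm_num) (hH.g_one Y)
    have h9 : Y * min 1 Y * g Y ≤ Y * (2 * mm) * (K * g X) := by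
      have h10 : 0 ≤ min 1 Y := le_min (by norm_num) hY0.le
      gcongr
    have h11 : 0 ≤ Y * min 1 Y * g Y := by
      have h10 : 0 ≤ min 1 Y := le_min (by norm_num) hY0.le
      positivity
    refine mul_le_mul ?_ h3 (Real.exp_pos _).le ?_
    · exact mul_le_mul_of_nonneg_left h9 (by positivity)
    · have : 0 ≤ Y * (2 * mm) * (K * g X) := h11.trans h9
      positivity
  refine (mul_le_mul_of_nonneg_left h8 (by positivity)).trans ?_
  have h12 : (2 : ℝ) ^ (i₁ + i₂) * Y = 2 * X := by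
    rw [hY]
    field_simp
  have h13 : (Fintype.card U : ℝ) * (Fintype.card C *
      (Fintype.card k : ℝ) ^ 7 * p * WW K i₁ i₂ *
        (K * (Y * (2 * mm) * (K * g X)) * (3 ^ n0 * ((lg X : ℝ) + 2) ^ n0))) =
      (C1 : ℝ) * ((lg X : ℝ) + 2) ^ n0 * (i₁ + i₂) ^ K * w * mm * (X * g X) := by
    rw [hC1, hWW]
    push_cast
    linear_combination ((Fintype.card U : ℝ) * Fintype.card k ^ 7 * p * Fintype.card C * K ^ 3 *
      (i₁ + i₂) ^ K * w * 2 * mm * g X * 3 ^ n0 * ((lg X : ℝ) + 2) ^ n0) * h12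
  rw [h13]
  have h14 : (C1 : ℝ) ≤ ((C1 + n0 : ℕ) : ℝ) := by
    push_cast
    have : (0 : ℝ) ≤ n0 := Nat.cast_nonneg _
    linarith
  have h15 : ((lg X : ℝ) + 2) ^ n0 ≤ ((lg X : ℝ) + 2) ^ (C1 + n0) := by
    refine pow_le_pow_right₀ ?_ (by omega)
    have : (0 : ℝ) ≤ lg X := Nat.cast_nonneg _
    linarith
  have h16 : 0 ≤ X * g X := by positivity
  gcongr

end Pool.Agent.Helper39.TH
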